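import Pool.Agent.Helper65.KQ.Sign

/-!
The fast test `chkK` and `chkK = true → chkB = true`.
-/

set_option autoImplicit false
set_option exponentiation.threshold 1100
noncomputable section
namespace Pool.Agent.Helper65.KQ

open Pool.Agent.Helper6.MONO.XTH

/-! ### forced evaluation -/

def fN {α : Type} (n : ℕ) (f : ℕ → α) : α :=
  Nat.rec (motive := fun _ => α) (f 0) (fun k _ => f (Nat.succ k)) n

def fZ {α : Type} (x : ℤ) (f : ℤ → α) : α :=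
  Int.rec (motive := fun _ => α) (fun n => fN n (fun k => f (Int.ofNat k)))
    (fun n => fN n (fun k => f (Int.negSucc k))) x

theorem fN_eq {α : Type} (n : ℕ) (f : ℕ → α) : fN n f = f n := by
  cases n <;> rfl

theorem fZ_eq {α : Type} (x : ℤ) (f : ℤ → α) : fZ x f = f x := by
  cases x with
  | ofNat n => exact fN_eq n (fun k => f (Int.ofNat k))
  | negSucc n => exact fN_eq n (fun k => f (Int.negSucc k))

/-! ### constants -/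

def N27 : ℤ := ((Nat.mul 27 (Nat.pow 2 576) : ℕ) : ℤ)
def N24 : ℤ := ((Nat.mul 24 (Nat.pow 2 192) : ℕ) : ℤ)
def N12 : ℤ := ((Nat.mul 12 (Nat.pow 2 96) : ℕ) : ℤ)
def N18 : ℤ := ((Nat.mul 18 (Nat.pow 2 288) : ℕ) : ℤ)
def N8 : ℤ := ((Nat.mul 8 (Nat.pow 2 288) : ℕ) : ℤ)
def N12b : ℤ := ((Nat.mul 12 (Nat.pow 2 192) : ℕ) : ℤ)
def N96 : ℤ := ((Nat.pow 2 96 : ℕ) : ℤ)
def N3 : ℤ := ((Nat.mul 3 (Nat.pow 2 96) : ℕ) : ℤ)
def W1 : ℤ := ((Nat.pow 2 1024 : ℕ) : ℤ)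
def W11 : ℤ := ((Nat.pow 2 11264 : ℕ) : ℤ)
def W121 : ℤ := ((Nat.pow 2 123904 : ℕ) : ℤ)

theorem cpow (a : ℕ) (m : ℕ) : ((Nat.mul a (Nat.pow 2 m) : ℕ) : ℤ) = (a : ℤ) * 2 ^ m := by
  rw [Nat.mul_eq, Nat.pow_eq, Nat.cast_mul, Nat.cast_pow]
  rfl

theorem cpow1 (m : ℕ) : ((Nat.pow 2 m : ℕ) : ℤ) = 2 ^ m := by
  rw [Nat.pow_eq, Nat.cast_pow]
  rfl

theorem W1_eq : W1 = WW := cpow1 1024

theorem wpow (m n p : ℕ) (h : m * n = p) : ((Nat.pow 2 p : ℕ) : ℤ) = (2 ^ m) ^ n := by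
  rw [cpow1, ← pow_mul, h]

theorem W11_eq : W11 = WW ^ 11 := wpow 1024 11 11264 rfl

theorem W121_eq : W121 = WW ^ 121 := wpow 1024 121 123904 rfl

/-- the map `k` on the constants: `s = -1` (identity) or `s = 1` (absolute values) -/
structure Ks (k : ℤ → ℤ) (s : ℤ) : Prop where
  k1 : k 1 = 1
  km : k (-1) = s
  k3 : k (-3 * 2 ^ 96) = s * N3
  k27 : k (-27 * 2 ^ 576) = s * N27
  k24 : k (-24 * 2 ^ 192) = s * N24
  k12 : k (-12 * 2 ^ 96) = s * N12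
  k18 : k (18 * 2 ^ 288) = N18
  k8 : k (8 * 2 ^ 288) = N8
  k12b : k (12 * 2 ^ 192) = N12b
  k12c : k (12 * 2 ^ 96) = N12
  k4 : k 4 = 4
  k96 : k (2 ^ 96) = N96

def kI : ℤ → ℤ := fun c => c
def kA : ℤ → ℤ := fun c => (c.natAbs : ℤ)

theorem nm (a : ℤ) (b : ℕ) (h : (b : ℤ) = a) (m : ℕ) :
    kI (-a * 2 ^ m) = -1 * ((Nat.mul b (Nat.pow 2 m) : ℕ) : ℤ) := by
  rw [cpow, h, kI]
  ring

theorem ip (a : ℤ) (b : ℕ) (h : (b : ℤ) = a) (m : ℕ) :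
    kI (a * 2 ^ m) = ((Nat.mul b (Nat.pow 2 m) : ℕ) : ℤ) := by
  rw [cpow, h, kI]

theorem ip1 (m : ℕ) : kI (2 ^ m) = ((Nat.pow 2 m : ℕ) : ℤ) := by
  rw [cpow1, kI]

theorem ksI : Ks kI (-1) where
  k1 := rfl
  km := rfl
  k3 := nm 3 3 rfl 96
  k27 := nm 27 27 rfl 576
  k24 := nm 24 24 rfl 192
  k12 := nm 12 12 rfl 96
  k18 := ip 18 18 rfl 288
  k8 := ip 8 8 rfl 288
  k12b := ip 12 12 rfl 192
  k12c := ip 12 12 rfl 96
  k4 := rfl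
  k96 := ip1 96

theorem am (a : ℤ) (b : ℕ) (h : (b : ℤ) = a) (m : ℕ) :
    kA (-a * 2 ^ m) = 1 * ((Nat.mul b (Nat.pow 2 m) : ℕ) : ℤ) := by
  rw [one_mul, kA, Int.natAbs_mul, Int.natAbs_neg, Int.natAbs_pow, ← h, Int.natAbs_natCast]
  rfl

theorem ap (a : ℤ) (b : ℕ) (h : (b : ℤ) = a) (m : ℕ) :
    kA (a * 2 ^ m) = ((Nat.mul b (Nat.pow 2 m) : ℕ) : ℤ) := by
  rw [kA, Int.natAbs_mul, Int.natAbs_pow, ← h, Int.natAbs_natCast]
  rfl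

theorem ap1 (m : ℕ) : kA (2 ^ m) = ((Nat.pow 2 m : ℕ) : ℤ) := by
  rw [kA, Int.natAbs_pow]
  rfl

theorem ksA : Ks kA 1 where
  k1 := rfl
  km := rfl
  k3 := am 3 3 rfl 96
  k27 := am 27 27 rfl 576
  k24 := am 24 24 rfl 192
  k12 := am 12 12 rfl 96
  k18 := ap 18 18 rfl 288
  k8 := ap 8 8 rfl 288
  k12b := ap 12 12 rfl 192
  k12c := ap 12 12 rfl 96
  k4 := rfl
  k96 := ap1 96

/-! ### the mask -/

def MG (p m q : ℕ) : ℕ :=
  Nat.mul (Nat.pow 2 p) (Nat.div (Nat.sub (Nat.pow 2 m) 1) (Nat.sub (Nat.pow 2 q) 1))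

def MASK : ℕ := MG 1023 1362944 1024

theorem mask_eq (p K m q : ℕ) (hm : (p + 1) * K = m) (hq : p + 1 = q) :
    MG p m q = MK p K := by
  subst hm hq
  have h := MK_eq p K
  have hpos : 0 < 2 ^ (p + 1) - 1 := by
    have : 2 ^ 1 ≤ 2 ^ (p + 1) := Nat.pow_le_pow_right (by norm_num) (by omega)
    omega
  obtain ⟨c, hc⟩ : 2 ^ (p + 1) - 1 ∣ 2 ^ ((p + 1) * K) - 1 := by
    have := Nat.sub_dvd_pow_sub_pow (2 ^ (p + 1)) 1 K
    rwa [one_pow, ← pow_mul] at this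
  have e : (2 ^ ((p + 1) * K) - 1) / (2 ^ (p + 1) - 1) = c := by
    rw [hc, Nat.mul_div_cancel_left _ hpos]
  show 2 ^ p * ((2 ^ ((p + 1) * K) - 1) / (2 ^ (p + 1) - 1)) = MK p K
  rw [e]
  rw [hc] at h
  have h2 : (2 ^ (p + 1) - 1) * MK p K = (2 ^ (p + 1) - 1) * (2 ^ p * c) := by
    rw [mul_comm, h]
    ring
  exact (Nat.eq_of_mul_eq_mul_left hpos h2).symm

theorem MASK_eq : MASK = MK 1023 1331 := mask_eq 1023 1331 1362944 1024 rfl rfl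

/-- all digits small -/
def tst (v : ℤ) : Bool :=
  Int.rec (motive := fun _ => Bool) (fun n => Nat.beq (Nat.land n MASK) 0) (fun _ => false) v

theorem tst_sound {v : ℤ} (h : tst v = true) : DG WW 1331 v := by
  cases v with
  | ofNat n =>
    have h1 : Nat.beq (Nat.land n MASK) 0 = true := h
    have h2 : n &&& MK 1023 1331 = 0 := by
      rw [← MASK_eq]
      exact Nat.eq_of_beq_eq_true h1
    exact and_dg 1023 1331 n h2
  | negSucc n => exact absurd h (by simp [tst])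

/-! ### the test -/

def gF (s D S Y A2 : ℤ) (f : ℤ → Bool) : Bool :=
  fZ (S * S) fun S2 => fZ (Y * Y) fun Y2 =>
  fZ (D * (N96 * S2) + (D * (D * (D * A2)) + S * Y)) fun P =>
  fZ (D * (D * (D * (D * (s * N27))))) fun T0 =>
  fZ (D * (T0 + s * N24 * (S * A2))) fun T1 =>
  fZ (D * (T1 + (s * N12 * (A2 * Y) + N18 * P))) fun T2 =>
  fZ (D * (T2 + N8 * (S * S2))) fun T3 =>
  fZ (D * (T3 + N12b * (S2 * Y))) fun T4 =>
  fZ (D * (T4 + N12 * (S * Y2))) fun T5 =>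
  fZ (D * (T5 + 4 * (Y * Y2)) + P * P) f

theorem gF_eq {k : ℤ → ℤ} {s : ℤ} (hk : Ks k s) (D S Y A2 : ℤ) (f : ℤ → Bool) :
    gF s D S Y A2 f = f (vG k D S Y A2) := by
  simp only [gF, fZ_eq, vG, hk.k27, hk.k24, hk.k12, hk.k18, hk.k8, hk.k12b, hk.k12c, hk.k4,
    hk.k96]

def body (s x y z l0 h0 l1 h1 l2 h2 q r : ℤ) (f : ℤ → ℤ → Bool) : Bool :=
  fZ (1 + x) fun e0 => fZ (1 + y) fun e1 => fZ (1 + z) fun e2 =>
  fZ (e1 * e2) fun e12 => fZ (e0 * e12) fun D =>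
  fZ (l0 + x * h0) fun L0 => fZ (l1 + y * h1) fun L1 => fZ (l2 + z * h2) fun L2 =>
  fZ (L0 * e12) fun a0 => fZ (L1 * (e0 * e2)) fun a1 => fZ (L2 * (e0 * e1)) fun a2 =>
  fZ (D * D) fun D2 =>
  fZ ((a0 * a0 + a1 * a1) + (a2 * a2 + s * N3 * D2)) fun S =>
  fZ (L0 * (L1 * L2)) fun A => fZ (A * A) fun A2 =>
  fZ q fun q' => fZ (r * D2) fun d2 =>
  fZ (A * (q' + d2)) fun Y1 => fZ (A * (q' + s * d2)) fun Y0 =>
  gF s D S Y1 A2 fun F1 => gF s D S Y0 A2 fun F0 => f F1 F0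

/-- values -/
def v1 (k : ℤ → ℤ) (x y z : ℤ) (l h : Fin 3 → ℤ) (X : Fin 3 → Fin 3 → Fin 3 → ℤ) (r : ℤ) : ℤ :=
  vG k (vD k x y z) (vS k x y z l h) (vA k x y z l h * (vQ k x y z X +
    k r * (vD k x y z * k 1 * (vD k x y z * k 1)))) (vA k x y z l h * vA k x y z l h)

def v0 (k : ℤ → ℤ) (x y z : ℤ) (l h : Fin 3 → ℤ) (X : Fin 3 → Fin 3 → Fin 3 → ℤ) (r : ℤ) : ℤ :=
  vG k (vD k x y z) (vS k x y z l h) (vA k x y z l h * (vQ k x y z X +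
    k (-1) * (k r * (vD k x y z * k 1 * (vD k x y z * k 1))))) (vA k x y z l h * vA k x y z l h)

theorem body_eq {k : ℤ → ℤ} {s : ℤ} (hk : Ks k s) (x y z : ℤ) (l h : Fin 3 → ℤ)
    (X : Fin 3 → Fin 3 → Fin 3 → ℤ) (r : ℤ) (f : ℤ → ℤ → Bool) :
    body s x y z (k (l 0)) (k (h 0)) (k (l 1)) (k (h 1)) (k (l 2)) (k (h 2))
      (vQ k x y z X) (k r) f = f (v1 k x y z l h X r) (v0 k x y z l h X r) := by
  simp only [body, fZ_eq, gF_eq hk, v1, v0, vD, vE, vS, vA, vL0, vL1, vL2, hk.k1, hk.km, hk.k3,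
    mul_one]

def chkK (l h : Fin 3 → ℤ) (X : Fin 3 → Fin 3 → Fin 3 → ℤ) (r : ℤ) : Bool :=
  body 1 1 1 1 (kA (l 0)) (kA (h 0)) (kA (l 1)) (kA (h 1)) (kA (l 2)) (kA (h 2))
    (vQ kA 1 1 1 X) (kA r)
    (fun F1 F0 => decide (2 * F1 < W1) && decide (2 * (1 + 1 * F0) < W1)) &&
  body (-1) W121 W11 W1 (kI (l 0)) (kI (h 0)) (kI (l 1)) (kI (h 1)) (kI (l 2)) (kI (h 2))
    (vQ kI W121 W11 W1 X) (kI r)
    (fun F1 F0 => tst F1 && tst (-1 + -1 * F0))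

section
variable {e : ℤ × ℕ → ℤ} {k : ℤ → ℤ} {x y z : ℤ} (he : Hm LZ e) (hk : ∀ L, e (mz L) = lk k z L)

include he hk in
theorem f_1' (l h : Fin 3 → ℤ) (X : Fin 3 → Fin 3 → Fin 3 → ℤ) (r : ℤ) :
    ev (ev e y) x (pF (pS l h) (pm (pA l h) (pa (pQ X) (pm (pc r) (pm (pD (pc 1)) (pD (pc 1))))))
      (pm (pA l h) (pA l h))) = v1 k x y z l h X r := by
  have hh := (he.up y).up x
  have hD := f_DD (x := x) (y := y) hk
  rw [f_F hh (f_c hk) hD]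
  simp only [f_mul hh, f_add hh, f_D hh hD, f_c hk, f_S he hk, f_A he hk, f_Q hk, v1]

include he hk in
theorem f_0' (l h : Fin 3 → ℤ) (X : Fin 3 → Fin 3 → Fin 3 → ℤ) (r : ℤ) :
    ev (ev e y) x (pF (pS l h) (pm (pA l h) (pa (pQ X) (pm (pc (-1))
      (pm (pc r) (pm (pD (pc 1)) (pD (pc 1)))))))
      (pm (pA l h) (pA l h))) = v0 k x y z l h X r := by
  have hh := (he.up y).up x
  have hD := f_DD (x := x) (y := y) hk
  rw [f_F hh (f_c hk) hD]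
  simp only [f_mul hh, f_add hh, f_D hh hD, f_c hk, f_S he hk, f_A he hk, f_Q hk, v0]

end

theorem lval_lk (L : List ℤ) : lval WW L = lk kI WW L := by
  induction L with
  | nil => rfl
  | cons c L ih => simp only [lval, lk, ih, kI]

theorem lone_lk (L : List ℤ) : (lone L : ℤ) = lk kA 1 L := by
  induction L with
  | nil => rfl
  | cons c L ih => simp only [lone, lk, kA, Nat.cast_add, ih, one_mul]

theorem mz1 (L : List ℤ) : (fun a : ℤ × ℕ => a.1) (mz L) = lk kI WW L := lval_lk L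

theorem mz2 (L : List ℤ) : (fun a : ℤ × ℕ => (a.2 : ℤ)) (mz L) = lk kA 1 L := lone_lk L

attribute [local irreducible] pa pm pD pc mz pF pS pA pQ isPos W1 W11 W121 MASK WW body tst kA kI
  vG vQ vS vA vD v1 v0

theorem chkB_def (l h : Fin 3 → ℤ) (X : Fin 3 → Fin 3 → Fin 3 → ℤ) (r : ℤ) :
    chkB l h X r = (isPos (pF (pS l h) (pm (pA l h) (pa (pQ X) (pm (pc r)
      (pm (pD (pc 1)) (pD (pc 1)))))) (pm (pA l h) (pA l h))) &&
    isPos (pa (pc (-1)) (pm (pc (-1)) (pF (pS l h) (pm (pA l h) (pa (pQ X) (pm (pc (-1))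
      (pm (pc r) (pm (pD (pc 1)) (pD (pc 1))))))) (pm (pA l h) (pA l h)))))) := rfl

theorem chkK_def {l h : Fin 3 → ℤ} {X : Fin 3 → Fin 3 → Fin 3 → ℤ} {r : ℤ}
    (hc : chkK l h X r = true) : (2 * v1 kA 1 1 1 l h X r < W1 ∧
      2 * (1 + 1 * v0 kA 1 1 1 l h X r) < W1) ∧ (tst (v1 kI W121 W11 W1 l h X r) = true ∧
      tst (-1 + -1 * v0 kI W121 W11 W1 l h X r) = true) := by
  unfold chkK at hc
  rw [Bool.and_eq_true] at hc
  obtain ⟨h1, h2⟩ := hc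
  rw [body_eq ksA] at h1
  rw [body_eq ksI] at h2
  rw [Bool.and_eq_true, decide_eq_true_iff, decide_eq_true_iff] at h1
  rw [Bool.and_eq_true] at h2
  exact ⟨h1, h2⟩

/-- THE FAST TEST IMPLIES THE TEST -/
theorem chkB_of {l h : Fin 3 → ℤ} {X : Fin 3 → Fin 3 → Fin 3 → ℤ} {r : ℤ}
    (hc : chkK l h X r = true) : chkB l h X r = true := by
  obtain ⟨⟨n1, n0⟩, ⟨t1, t0⟩⟩ := chkK_def hc
  rw [W1_eq] at n1 n0 t1 t0
  rw [W11_eq, W121_eq] at t1 t0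
  have gA := g_A l h
  have gA2 := gg_mul gA gA
  have gd2 := gg_c r (gg_mul g_d g_d)
  have gS := g_S l h
  have gQ : G3 (g 2) (pQ X) := g_Q X
  have G1 := g_F gS (gg_mul gA (g_add gQ gd2)) gA2
  have G0 := g_F gS (gg_mul gA (g_add gQ (gg_c (-1) gd2))) gA2
  have V1 := f_1' (x := WW ^ 121) (y := WW ^ 11) hm1 mz1 l h X r
  have V0 := f_0' (x := WW ^ 121) (y := WW ^ 11) hm1 mz1 l h X r
  have M1 := f_1' (x := 1) (y := 1) hm2 mz2 l h X r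
  have M0 := f_0' (x := 1) (y := 1) hm2 mz2 l h X r
  rw [chkB_def, Bool.and_eq_true]
  refine ⟨top _ G1 ?_ ?_, top _ (g_add (g_c (g 10) (-1)) (gg_c (-1) G0)) ?_ ?_⟩
  · show 2 * ev (ev _ 1) 1 _ < WW
    rw [M1]
    exact n1
  · show DG WW 1331 (ev (ev _ (WW ^ 11)) (WW ^ 121) _)
    rw [V1]
    exact tst_sound t1
  · show 2 * ev (ev _ 1) 1 _ < WW
    rw [f_add ((hm2.up 1).up 1), f_mul ((hm2.up 1).up 1), M0,
      f_c (k := kA) (x := 1) (y := 1) (z := 1) mz2, ksA.km]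
    exact n0
  · show DG WW 1331 (ev (ev _ (WW ^ 11)) (WW ^ 121) _)
    rw [f_add ((hm1.up (WW ^ 11)).up (WW ^ 121)), f_mul ((hm1.up (WW ^ 11)).up (WW ^ 121)), V0,
      f_c (k := kI) (x := WW ^ 121) (y := WW ^ 11) (z := WW) mz1, ksI.km]
    exact tst_sound t0

end Pool.Agent.Helper65.KQ
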