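import Pool.Agent.Helper12.CX.XTB

/-!
A fast test which implies `chkB`: the polynomials in three variables are packed in ONE integer
(base `2 ^ 1024`, exponents `121 i + 11 j + k`), and the signs of all coefficients are read off
with one mask.
-/

set_option autoImplicit false
noncomputable section
namespace Pool.Agent.Helper65.KQ

open Pool.Agent.Helper6.MONO.XTH

/-! ### evaluation at an integral point -/

def ev {α : Type} (e : α → ℤ) (x : ℤ) : List α → ℤ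
  | [] => 0
  | a :: A => e a + x * ev e x A

structure Hm {α : Type} (R : LR α) (e : α → ℤ) : Prop where
  zero : e R.zero = 0
  add : ∀ a b, e (R.add a b) = e a + e b
  mul : ∀ a b, e (R.mul a b) = e a * e b

section
variable {α : Type} {R : LR α} {e : α → ℤ} (h : Hm R e) (x : ℤ)

include h in
theorem ev_add (A B : List α) : ev e x (ladd R A B) = ev e x A + ev e x B := by
  induction A generalizing B with
  | nil => simp [ladd, ev]
  | cons a A ih =>
    cases B with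
    | nil => simp [ladd, ev]
    | cons b B =>
      simp only [ladd, ev, ih, h.add]
      ring

include h in
theorem ev_sm (a : α) (B : List α) : ev e x (lsm R a B) = e a * ev e x B := by
  induction B with
  | nil => simp [lsm, ev]
  | cons b B ih =>
    simp only [lsm, ev, ih, h.mul]
    ring

include h in
theorem ev_mul (A B : List α) : ev e x (lmul R A B) = ev e x A * ev e x B := by
  induction A with
  | nil => simp [lmul, ev]
  | cons a A ih =>
    simp only [lmul, ev_add h, ev_sm h, ev, ih, h.zero]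
    ring

include h in
theorem Hm.up : Hm R.up (ev e x) := ⟨rfl, ev_add h x, ev_mul h x⟩

end

theorem hm1 : Hm LZ (fun a => a.1) := ⟨rfl, fun _ _ => rfl, fun _ _ => rfl⟩

theorem hm2 : Hm LZ (fun a => (a.2 : ℤ)) :=
  ⟨rfl, fun a b => by simp [LZ], fun a b => by simp [LZ]⟩

/-- value at the packed point -/
def pv : P3 → ℤ := ev (ev (fun a : ℤ × ℕ => a.1) (WW ^ 11)) (WW ^ 121)
/-- sum of the bounds -/
def pn : P3 → ℤ := ev (ev (fun a : ℤ × ℕ => (a.2 : ℤ)) 1) 1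

theorem hpv : Hm L3 pv := (hm1.up _).up _
theorem hpn : Hm L3 pn := (hm2.up _).up _

/-- the Horner scheme over `ℤ` -/
def vG (k : ℤ → ℤ) (D S Y A2 : ℤ) : ℤ :=
  D * (D * (D * (D * (D * (D * (D * (D * (D * (D * k (-27 * 2 ^ 576)))) +
    k (-24 * 2 ^ 192) * (S * A2)) +
    (k (-12 * 2 ^ 96) * (A2 * Y) + k (18 * 2 ^ 288) * (D * (k (2 ^ 96) * (S * S)) +
      (D * (D * (D * A2)) + S * Y)))) + k (8 * 2 ^ 288) * (S * (S * S))) +
    k (12 * 2 ^ 192) * (S * S * Y)) + k (12 * 2 ^ 96) * (S * (Y * Y))) +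
    k 4 * (Y * (Y * Y))) +
    (D * (k (2 ^ 96) * (S * S)) + (D * (D * (D * A2)) + S * Y)) *
      (D * (k (2 ^ 96) * (S * S)) + (D * (D * (D * A2)) + S * Y))

section
variable {φ : P3 → ℤ} (h : Hm L3 φ) {k : ℤ → ℤ} (hk : ∀ c, φ (pc c) = k c) {D : ℤ}
  (hD : φ pE0 * (φ pE1 * φ pE2) = D)

include h in
theorem f_add (A B : P3) : φ (pa A B) = φ A + φ B := h.add A B

include h in
theorem f_mul (A B : P3) : φ (pm A B) = φ A * φ B := h.mul A B

include h hD in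
theorem f_D (A : P3) : φ (pD A) = D * φ A := by
  rw [← hD]
  simp only [pD, f_mul h]
  ring

include h hk hD in
theorem f_F (S Y A2 : P3) : φ (pF S Y A2) = vG k D (φ S) (φ Y) (φ A2) := by
  simp only [pF, f_add h, f_mul h, f_D h hD, hk, vG]

end

/-- evaluation of a list, coefficients through `k` -/
def lk (k : ℤ → ℤ) (z : ℤ) : List ℤ → ℤ
  | [] => 0
  | c :: L => k c + z * lk k z L

/-- the coefficients of `pQ` -/
def qL (X : Fin 3 → Fin 3 → Fin 3 → ℤ) : List (List (List ℤ)) :=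
  [[[X 0 0 0, 2 * X 0 0 1, X 0 0 2], [2 * X 0 1 0, 4 * X 0 1 1, 2 * X 0 1 2],
    [X 0 2 0, 2 * X 0 2 1, X 0 2 2]],
   [[2 * X 1 0 0, 4 * X 1 0 1, 2 * X 1 0 2], [4 * X 1 1 0, 8 * X 1 1 1, 4 * X 1 1 2],
    [2 * X 1 2 0, 4 * X 1 2 1, 2 * X 1 2 2]],
   [[X 2 0 0, 2 * X 2 0 1, X 2 0 2], [2 * X 2 1 0, 4 * X 2 1 1, 2 * X 2 1 2],
    [X 2 2 0, 2 * X 2 2 1, X 2 2 2]]]

def vL0 (k : ℤ → ℤ) (x : ℤ) (l h : Fin 3 → ℤ) : ℤ := k (l 0) + x * k (h 0)
def vL1 (k : ℤ → ℤ) (y : ℤ) (l h : Fin 3 → ℤ) : ℤ := k (l 1) + y * k (h 1)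
def vL2 (k : ℤ → ℤ) (z : ℤ) (l h : Fin 3 → ℤ) : ℤ := k (l 2) + z * k (h 2)
def vE (k : ℤ → ℤ) (x : ℤ) : ℤ := k 1 + x * k 1
def vD (k : ℤ → ℤ) (x y z : ℤ) : ℤ := vE k x * (vE k y * vE k z)
def vA (k : ℤ → ℤ) (x y z : ℤ) (l h : Fin 3 → ℤ) : ℤ := vL0 k x l h * (vL1 k y l h * vL2 k z l h)
def vS (k : ℤ → ℤ) (x y z : ℤ) (l h : Fin 3 → ℤ) : ℤ :=
  (vL0 k x l h * (vE k y * vE k z) * (vL0 k x l h * (vE k y * vE k z)) +
    vL1 k y l h * (vE k x * vE k z) * (vL1 k y l h * (vE k x * vE k z))) +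
  (vL2 k z l h * (vE k x * vE k y) * (vL2 k z l h * (vE k x * vE k y)) +
    k (-3 * 2 ^ 96) * (vD k x y z * k 1 * (vD k x y z * k 1)))
def vQ (k : ℤ → ℤ) (x y z : ℤ) (X : Fin 3 → Fin 3 → Fin 3 → ℤ) : ℤ :=
  ev (ev (lk k z) y) x (qL X)

section
variable {e : ℤ × ℕ → ℤ} {k : ℤ → ℤ} {x y z : ℤ} (he : Hm LZ e) (hk : ∀ L, e (mz L) = lk k z L)

include hk in
theorem f_c (c : ℤ) : ev (ev e y) x (pc c) = k c := by
  simp [pc, ev, hk, lk]

include hk in
theorem f_0 (a b : ℤ) : ev (ev e y) x [[mz [a]], [mz [b]]] = k a + x * k b := by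
  simp [ev, hk, lk]

include hk in
theorem f_1 (a b : ℤ) : ev (ev e y) x [[mz [a], mz [b]]] = k a + y * k b := by
  simp [ev, hk, lk]

include hk in
theorem f_2 (a b : ℤ) : ev (ev e y) x [[mz [a, b]]] = k a + z * k b := by
  simp [ev, hk, lk]

include hk in
theorem f_DD : ev (ev e y) x pE0 * (ev (ev e y) x pE1 * ev (ev e y) x pE2) = vD k x y z := by
  simp only [pE0, pE1, pE2, f_0 hk, f_1 hk, f_2 hk, vD, vE]

include he hk in
theorem f_A (l h : Fin 3 → ℤ) : ev (ev e y) x (pA l h) = vA k x y z l h := by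
  have hh := (he.up y).up x
  unfold pA
  rw [f_mul hh, f_mul hh, f_0 hk, f_1 hk, f_2 hk]
  rfl

include he hk in
theorem f_S (l h : Fin 3 → ℤ) : ev (ev e y) x (pS l h) = vS k x y z l h := by
  have hh := (he.up y).up x
  have hD := f_DD (x := x) (y := y) hk
  simp only [pS, f_add hh, f_mul hh, f_D hh hD, f_c hk]
  simp only [pE0, pE1, pE2, f_0 hk, f_1 hk, f_2 hk, vS, vL0, vL1, vL2, vE]

include hk in
theorem f_Q (X : Fin 3 → Fin 3 → Fin 3 → ℤ) : ev (ev e y) x (pQ X) = vQ k x y z X := by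
  simp only [pQ, vQ, qL, ev, hk]

end

/-- first polynomial -/
def vY (k : ℤ → ℤ) (D A q r : ℤ) : ℤ := A * (q + r * (D * k 1 * (D * k 1)))

end Pool.Agent.Helper65.KQ
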