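import Pool.Agent.Helper65.KQ.Fast

/-!
Degrees of the list polynomials of `chkB`, and reading the signs of the coefficients from the
packed value.
-/

set_option autoImplicit false
noncomputable section
namespace Pool.Agent.Helper65.KQ

open Pool.Agent.Helper6.MONO.XTH

/-! ### degrees -/

structure Gr {α δ : Type} [Add δ] (R : LR α) (G : δ → α → Prop) : Prop where
  zero : ∀ d, G d R.zero
  add : ∀ d a b, G d a → G d b → G d (R.add a b)
  mul : ∀ d e a b, G d a → G e b → G (d + e) (R.mul a b)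

def GU {α δ : Type} (G : δ → α → Prop) (d : ℕ × δ) (A : List α) : Prop :=
  A.length ≤ d.1 + 1 ∧ ∀ a ∈ A, G d.2 a

section
variable {α δ : Type} [Add δ] {R : LR α} {G : δ → α → Prop} (h : Gr R G)

theorem ladd_len (A B : List α) : (ladd R A B).length = max A.length B.length := by
  induction A generalizing B with
  | nil => simp [ladd]
  | cons a A ih =>
    cases B with
    | nil => simp [ladd]
    | cons b B => simp only [ladd, List.length_cons, ih]; omega

theorem lsm_len (a : α) (B : List α) : (lsm R a B).length = B.length := by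
  induction B with
  | nil => rfl
  | cons b B ih => simp [lsm, ih]

theorem lmul_len (m n : ℕ) (A B : List α) (hA : A.length ≤ m + 1) (hB : B.length ≤ n + 1) :
    (lmul R A B).length ≤ m + n + 1 := by
  induction A generalizing m with
  | nil => simp [lmul]
  | cons a A ih =>
    simp only [lmul, ladd_len, lsm_len, List.length_cons] at hA ⊢
    rcases Nat.eq_zero_or_pos m with rfl | hm
    · have : A = [] := by
        cases A with
        | nil => rfl
        | cons b A => simp at hA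
      subst this
      simp only [lmul, List.length_nil]
      omega
    · have := ih (m - 1) (by omega)
      omega

include h in
theorem ladd_G (d : δ) (A B : List α) (hA : ∀ a ∈ A, G d a) (hB : ∀ a ∈ B, G d a) :
    ∀ a ∈ ladd R A B, G d a := by
  induction A generalizing B with
  | nil => simpa [ladd] using hB
  | cons a A ih =>
    cases B with
    | nil => simpa [ladd] using hA
    | cons b B =>
      intro c hc
      simp only [ladd, List.mem_cons] at hc
      rcases hc with rfl | hc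
      · exact h.add _ _ _ (hA _ (List.mem_cons_self ..)) (hB _ (List.mem_cons_self ..))
      · exact ih B (fun a ha => hA a (List.mem_cons_of_mem _ ha))
          (fun a ha => hB a (List.mem_cons_of_mem _ ha)) c hc

include h in
theorem lsm_G (d e : δ) (a : α) (B : List α) (ha : G d a) (hB : ∀ b ∈ B, G e b) :
    ∀ c ∈ lsm R a B, G (d + e) c := by
  induction B with
  | nil => simp [lsm]
  | cons b B ih =>
    intro c hc
    simp only [lsm, List.mem_cons] at hc
    rcases hc with rfl | hc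
    · exact h.mul _ _ _ _ ha (hB _ (List.mem_cons_self ..))
    · exact ih (fun a ha => hB a (List.mem_cons_of_mem _ ha)) c hc

include h in
theorem lmul_G (d e : δ) (A B : List α) (hA : ∀ a ∈ A, G d a) (hB : ∀ b ∈ B, G e b) :
    ∀ c ∈ lmul R A B, G (d + e) c := by
  induction A with
  | nil => simp [lmul]
  | cons a A ih =>
    simp only [lmul]
    refine ladd_G h _ _ _ (lsm_G h d e a B (hA _ (List.mem_cons_self ..)) hB) ?_
    intro c hc
    rcases List.mem_cons.1 hc with rfl | hc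
    · exact h.zero _
    · exact ih (fun a ha => hA a (List.mem_cons_of_mem _ ha)) c hc

include h in
theorem Gr.up : Gr R.up (GU G) := by
  refine ⟨fun d => ⟨by simp [LR.up], by simp [LR.up]⟩, ?_, ?_⟩
  · rintro d A B ⟨h1, h2⟩ ⟨h3, h4⟩
    refine ⟨?_, ladd_G h _ _ _ h2 h4⟩
    show (ladd R A B).length ≤ _
    rw [ladd_len]
    exact max_le h1 h3
  · rintro d e A B ⟨h1, h2⟩ ⟨h3, h4⟩
    exact ⟨lmul_len d.1 e.1 A B h1 h3, lmul_G h _ _ _ _ h2 h4⟩

end

/-- bottom level: the exact list, its sum of absolute values, its degree -/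
def GZ (d : ℕ) (a : ℤ × ℕ) : Prop :=
  ∃ L : List ℤ, lval WW L = a.1 ∧ lone L ≤ a.2 ∧ L.length ≤ d + 1

theorem lcadd_len (A B : List ℤ) : (lcadd A B).length = max A.length B.length := by
  induction A generalizing B with
  | nil => simp [lcadd]
  | cons a A ih =>
    cases B with
    | nil => simp [lcadd]
    | cons b B => simp only [lcadd, List.length_cons, ih]; omega

theorem lcmul_len (m n : ℕ) (A B : List ℤ) (hA : A.length ≤ m + 1) (hB : B.length ≤ n + 1) :
    (lcmul A B).length ≤ m + n + 1 := by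
  induction A generalizing m with
  | nil => simp [lcmul]
  | cons a A ih =>
    simp only [lcmul, lcadd_len, List.length_map, List.length_cons] at hA ⊢
    rcases Nat.eq_zero_or_pos m with rfl | hm
    · have : A = [] := by
        cases A with
        | nil => rfl
        | cons b A => simp at hA
      subst this
      simp only [lcmul, List.length_nil]
      omega
    · have := ih (m - 1) (by omega)
      omega

theorem grZ : Gr LZ GZ := by
  refine ⟨fun d => ⟨[], rfl, le_rfl, by simp⟩, ?_, ?_⟩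
  · rintro d a b ⟨L, h1, h2, h3⟩ ⟨M, k1, k2, k3⟩
    refine ⟨lcadd L M, ?_, (lcadd_one L M).trans (add_le_add h2 k2), ?_⟩
    · rw [lcadd_val, h1, k1]
      rfl
    · rw [lcadd_len]
      exact max_le h3 k3
  · rintro d e a b ⟨L, h1, h2, h3⟩ ⟨M, k1, k2, k3⟩
    refine ⟨lcmul L M, ?_, (lcmul_one L M).trans (Nat.mul_le_mul h2 k2),
      lcmul_len d e L M h3 k3⟩
    rw [lcmul_val, h1, k1]
    rfl

def G3 : ℕ × (ℕ × ℕ) → P3 → Prop := GU (GU GZ)

theorem gr3 : Gr L3 G3 := grZ.up.up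

theorem mz_G (d : ℕ) (L : List ℤ) (h : L.length ≤ d + 1) : GZ d (mz L) :=
  ⟨L, rfl, le_rfl, h⟩

theorem row_G (d : ℕ × ℕ) (A : List (List ℤ)) (h1 : A.length ≤ d.1 + 1)
    (h2 : ∀ L ∈ A, L.length ≤ d.2 + 1) : GU GZ d (A.map mz) := by
  refine ⟨by simpa using h1, ?_⟩
  intro a ha
  obtain ⟨L, hL, rfl⟩ := List.mem_map.1 ha
  exact mz_G _ _ (h2 L hL)

theorem lst_G (d : ℕ × (ℕ × ℕ)) (A : List (List (List ℤ))) (h1 : A.length ≤ d.1 + 1)
    (h2 : ∀ B ∈ A, B.length ≤ d.2.1 + 1 ∧ ∀ L ∈ B, L.length ≤ d.2.2 + 1) :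
    G3 d (A.map (List.map mz)) := by
  refine ⟨by simpa using h1, ?_⟩
  intro a ha
  obtain ⟨B, hB, rfl⟩ := List.mem_map.1 ha
  exact row_G _ _ (h2 B hB).1 (h2 B hB).2

theorem g_c (d : ℕ × (ℕ × ℕ)) (c : ℤ) : G3 d (pc c) :=
  lst_G d [[[c]]] (by simp) (by simp)

theorem g_0 (a b : ℤ) : G3 (1, 0, 0) [[mz [a]], [mz [b]]] :=
  lst_G (1, 0, 0) [[[a]], [[b]]] (by simp) (by simp)

theorem g_1 (a b : ℤ) : G3 (0, 1, 0) [[mz [a], mz [b]]] :=
  lst_G (0, 1, 0) [[[a], [b]]] (by simp) (by simp)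

theorem g_2 (a b : ℤ) : G3 (0, 0, 1) [[mz [a, b]]] :=
  lst_G (0, 0, 1) [[[a, b]]] (by simp) (by simp)

theorem g_Q (X : Fin 3 → Fin 3 → Fin 3 → ℤ) : G3 (2, 2, 2) (pQ X) :=
  lst_G (2, 2, 2) (qL X) (by simp [qL]) (by simp [qL])

theorem g_add {d : ℕ × (ℕ × ℕ)} {A B : P3} (hA : G3 d A) (hB : G3 d B) : G3 d (pa A B) :=
  gr3.add d A B hA hB

theorem g_mul {d e : ℕ × (ℕ × ℕ)} {A B : P3} (hA : G3 d A) (hB : G3 e B) :
    G3 (d + e) (pm A B) := gr3.mul d e A B hA hB

def g (n : ℕ) : ℕ × (ℕ × ℕ) := (n, n, n)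

theorem gg_mul {m n : ℕ} {A B : P3} (hA : G3 (g m) A) (hB : G3 (g n) B) :
    G3 (g (m + n)) (pm A B) := g_mul hA hB

theorem gg_D {n : ℕ} {A : P3} (hA : G3 (g n) A) : G3 (g (n + 1)) (pD A) := by
  have h := g_mul (g_0 1 1) (g_mul (g_1 1 1) (g_mul (g_2 1 1) hA))
  have e : ((1, 0, 0) : ℕ × (ℕ × ℕ)) + ((0, 1, 0) + ((0, 0, 1) + g n)) = g (n + 1) := by
    simp [g, add_comm]
  rw [e] at h
  exact h

theorem gg_c {n : ℕ} (c : ℤ) {A : P3} (hA : G3 (g n) A) : G3 (g n) (pm (pc c) A) := by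
  have h := gg_mul (g_c (g 0) c) hA
  rwa [zero_add] at h

theorem g_A (l h : Fin 3 → ℤ) : G3 (g 1) (pA l h) :=
  g_mul (g_0 (l 0) (h 0)) (g_mul (g_1 (l 1) (h 1)) (g_2 (l 2) (h 2)))

theorem g_d : G3 (g 1) (pD (pc 1)) := gg_D (g_c (g 0) 1)

theorem g_S (l h : Fin 3 → ℤ) : G3 (g 2) (pS l h) := by
  have a0 : G3 (g 1) (pm [[mz [l 0]], [mz [h 0]]] (pm pE1 pE2)) :=
    g_mul (g_0 (l 0) (h 0)) (g_mul (g_1 1 1) (g_2 1 1))
  have a1 : G3 (g 1) (pm [[mz [l 1], mz [h 1]]] (pm pE0 pE2)) :=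
    g_mul (g_1 (l 1) (h 1)) (g_mul (g_0 1 1) (g_2 1 1))
  have a2 : G3 (g 1) (pm [[mz [l 2, h 2]]] (pm pE0 pE1)) :=
    g_mul (g_2 (l 2) (h 2)) (g_mul (g_0 1 1) (g_1 1 1))
  exact g_add (g_add (gg_mul a0 a0) (gg_mul a1 a1)) (g_add (gg_mul a2 a2)
    (gg_c _ (gg_mul g_d g_d)))

theorem g_F {S Y A2 : P3} (hS : G3 (g 2) S) (hY : G3 (g 3) Y) (hA : G3 (g 2) A2) :
    G3 (g 10) (pF S Y A2) := by
  have S2 := gg_mul hS hS
  have SA2 := gg_mul hS hA
  have Y2 := gg_mul hY hY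
  have P : G3 (g 5) _ := g_add (gg_D (gg_c (2 ^ 96) S2)) (g_add (gg_D (gg_D (gg_D hA)))
    (gg_mul hS hY))
  have T0 : G3 (g 4) _ := gg_D (gg_D (gg_D (gg_D (g_c (g 0) (-27 * 2 ^ 576)))))
  have T1 : G3 (g 5) _ := gg_D (g_add T0 (gg_c (-24 * 2 ^ 192) SA2))
  have T2 : G3 (g 6) _ := gg_D (g_add T1 (g_add (gg_c (-12 * 2 ^ 96) (gg_mul hA hY))
    (gg_c (18 * 2 ^ 288) P)))
  have T3 : G3 (g 7) _ := gg_D (g_add T2 (gg_c (8 * 2 ^ 288) (gg_mul hS S2)))
  have T4 : G3 (g 8) _ := gg_D (g_add T3 (gg_c (12 * 2 ^ 192) (gg_mul S2 hY)))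
  have T5 : G3 (g 9) _ := gg_D (g_add T4 (gg_c (12 * 2 ^ 96) (gg_mul hS Y2)))
  have T6 : G3 (g 10) _ := gg_D (g_add T5 (gg_c 4 (gg_mul hY Y2)))
  exact g_add T6 (gg_mul P P)

end Pool.Agent.Helper65.KQ
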