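import Pool.Agent.Helper65.KQ.Shape

/-!
Reading the signs of the coefficients from the packed value; the mask test; the fast test.
-/

set_option autoImplicit false
noncomputable section
namespace Pool.Agent.Helper65.KQ

open Pool.Agent.Helper6.MONO.XTH

attribute [local irreducible] WW

/-- the first `K` digits in base `W` are less than `W / 2` -/
def DG (W : ℤ) : ℕ → ℤ → Prop
  | 0, _ => True
  | K + 1, N => 2 * (N % W) < W ∧ DG W K (N / W)

theorem DG_shift {W : ℤ} (hW : 0 < W) (s K : ℕ) (N : ℤ) (h : DG W (s + K) (W ^ s * N)) :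
    DG W K N := by
  induction s with
  | zero => simpa using h
  | succ s ih =>
    rw [Nat.succ_add] at h
    have e : W ^ (s + 1) * N = W * (W ^ s * N) := by ring
    have h2 := h.2
    rw [e, Int.mul_ediv_cancel_left _ hW.ne'] at h2
    exact ih h2

theorem blk {α : Type} {W : ℤ} (hW : 0 < W) (e : α → ℤ) (b : ℕ) (Inv Ok : α → Prop)
    (h : ∀ a K N, Inv a → DG W (b + K) (e a + W ^ b * N) → Ok a ∧ DG W K N) :
    ∀ (m : ℕ) (A : List α) (K : ℕ) (N : ℤ), A.length ≤ m → (∀ a ∈ A, Inv a) →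
      DG W (m * b + K) (ev e (W ^ b) A + W ^ (m * b) * N) → (∀ a ∈ A, Ok a) ∧ DG W K N := by
  intro m
  induction m with
  | zero =>
    intro A K N hl hI hD
    have : A = [] := by
      cases A with
      | nil => rfl
      | cons a A => simp at hl
    subst this
    simpa [ev] using hD
  | succ m ih =>
    intro A K N hl hI hD
    cases A with
    | nil =>
      refine ⟨by simp, ?_⟩
      simp only [ev, zero_add] at hD
      exact DG_shift hW _ _ _ hD
    | cons a A =>
      have e1 : (m + 1) * b + K = b + (m * b + K) := by ring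
      have e2 : ev e (W ^ b) (a :: A) + W ^ ((m + 1) * b) * N =
          e a + W ^ b * (ev e (W ^ b) A + W ^ (m * b) * N) := by
        simp only [ev]
        ring
      rw [e1, e2] at hD
      obtain ⟨h1, h2⟩ := h a _ _ (hI a (List.mem_cons_self ..)) hD
      obtain ⟨h3, h4⟩ := ih A K N (by simpa using hl) (fun a ha => hI a (List.mem_cons_of_mem _ ha)) h2
      refine ⟨?_, h4⟩
      intro c hc
      rcases List.mem_cons.1 hc with rfl | hc
      · exact h1
      · exact h3 c hc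

theorem blk' {α : Type} {W : ℤ} (hW : 0 < W) (e : α → ℤ) (b : ℕ) (Inv Ok : α → Prop)
    (h : ∀ a K N, Inv a → DG W (b + K) (e a + W ^ b * N) → Ok a ∧ DG W K N)
    (m M : ℕ) (hM : M = m * b) (A : List α) (K : ℕ) (N : ℤ) (hl : A.length ≤ m)
    (hI : ∀ a ∈ A, Inv a) (hD : DG W (M + K) (ev e (W ^ b) A + W ^ M * N)) :
    (∀ a ∈ A, Ok a) ∧ DG W K N := by
  subst hM
  exact blk hW e b Inv Ok h m A K N hl hI hD

theorem bot {W : ℤ} (hW : 0 < W) (c : ℤ) (K : ℕ) (N : ℤ) (hc : 2 * |c| < W)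
    (h : DG W (1 + K) (c + W ^ 1 * N)) : 0 ≤ c ∧ DG W K N := by
  rw [Nat.add_comm, pow_one] at h
  obtain ⟨h1, h2⟩ := h
  have hb := abs_lt.1 (show |c| < W by
    have := abs_nonneg c
    linarith)
  have hmod : (c + W * N) % W = c % W := Int.add_mul_emod_self_left _ _ _
  have hc0 : 0 ≤ c := by
    by_contra hneg
    push Not at hneg
    have : c % W = c + W := by
      rw [← Int.add_emod_right, Int.emod_eq_of_lt (by linarith) (by linarith)]
    rw [hmod, this] at h1
    have h2 : |c| = -c := abs_of_neg hneg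
    rw [h2] at hc
    linarith
  refine ⟨hc0, ?_⟩
  have hdiv : (c + W * N) / W = N := by
    rw [Int.add_mul_ediv_left _ _ hW.ne', Int.ediv_eq_zero_of_lt hc0 hb.2, zero_add]
  rwa [hdiv] at h2

theorem lval_ev (W : ℤ) (L : List ℤ) : lval W L = ev (fun c : ℤ => c) (W ^ 1) L := by
  induction L with
  | nil => rfl
  | cons c L ih => simp only [lval, ev, ih, pow_one]

/-- invariant of an entry -/
def IvZ (a : ℤ × ℕ) : Prop := GZ 10 a ∧ 2 * (a.2 : ℤ) < WW

theorem dig_of (n : ℕ) (L : List ℤ) (hl : L.length ≤ n) (h : ∀ c ∈ L, 0 ≤ c ∧ 2 * c < WW) :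
    dig WW n (lval WW L) = true := by
  induction n generalizing L with
  | zero =>
    have : L = [] := by
      cases L with
      | nil => rfl
      | cons a A => simp at hl
    subst this
    simp [dig, lval]
  | succ n ih =>
    cases L with
    | nil =>
      have := ih [] (by simp) (by simp)
      simp only [lval] at this
      have hW := WW_pos
      simp only [dig, lval, Bool.and_eq_true, decide_eq_true_eq, Int.zero_emod, Int.zero_ediv,
        mul_zero]
      exact ⟨hW, this⟩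
    | cons c L =>
      obtain ⟨h1, h2⟩ := h c (List.mem_cons_self ..)
      have hW := WW_pos
      have hlt : c < WW := by linarith
      have e1 : lval WW (c :: L) % WW = c := by
        rw [lval, Int.add_mul_emod_self_left, Int.emod_eq_of_lt h1 hlt]
      have e2 : lval WW (c :: L) / WW = lval WW L := by
        rw [lval, Int.add_mul_ediv_left _ _ hW.ne', Int.ediv_eq_zero_of_lt h1 hlt, zero_add]
      show (decide (2 * (lval WW (c :: L) % WW) < WW) && dig WW n (lval WW (c :: L) / WW)) = true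
      rw [Bool.and_eq_true, decide_eq_true_iff, e1, e2]
      exact ⟨h2, ih L (by simpa using hl) (fun d hd => h d (List.mem_cons_of_mem _ hd))⟩

theorem ent (a : ℤ × ℕ) (K : ℕ) (N : ℤ) (h : IvZ a) (hD : DG WW (11 + K) (a.1 + WW ^ 11 * N)) :
    LZ.nn a = true ∧ DG WW K N := by
  obtain ⟨⟨L, h1, h2, h3⟩, h4⟩ := h
  have hb : ∀ c ∈ L, 2 * |c| < WW := by
    intro c hc
    have h3 := (lone_mem hc).trans h2
    have h5 : |c| = (c.natAbs : ℤ) := Int.abs_eq_natAbs c
    rw [h5]
    have h6 : (c.natAbs : ℤ) ≤ (a.2 : ℤ) := by exact_mod_cast h3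
    linarith
  rw [← h1, lval_ev] at hD
  obtain ⟨h5, h6⟩ := blk' WW_pos (fun c : ℤ => c) 1 (fun c => 2 * |c| < WW) (fun c => 0 ≤ c)
    (fun c K N hc h => bot WW_pos c K N hc h) 11 11 rfl L K N h3 hb hD
  refine ⟨?_, h6⟩
  show (decide (2 * (a.2 : ℤ) < WW) && dig WW 11 a.1) = true
  rw [Bool.and_eq_true, decide_eq_true_eq]
  refine ⟨h4, ?_⟩
  rw [← h1]
  refine dig_of 11 L h3 (fun c hc => ⟨h5 c hc, ?_⟩)
  have := hb c hc
  rwa [abs_of_nonneg (h5 c hc)] at this

theorem lall_of {α : Type} {R : LR α} {A : List α} (h : ∀ a ∈ A, R.nn a = true) :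
    lall R A = true := by
  induction A with
  | nil => rfl
  | cons a A ih =>
    simp only [lall, Bool.and_eq_true]
    exact ⟨h a (List.mem_cons_self ..), ih (fun b hb => h b (List.mem_cons_of_mem _ hb))⟩

theorem row (A : List (ℤ × ℕ)) (K : ℕ) (N : ℤ) (h : A.length ≤ 11 ∧ ∀ a ∈ A, IvZ a)
    (hD : DG WW (121 + K) (ev (fun a : ℤ × ℕ => a.1) (WW ^ 11) A + WW ^ 121 * N)) :
    lall LZ A = true ∧ DG WW K N := by
  obtain ⟨h1, h2⟩ := blk' WW_pos (fun a : ℤ × ℕ => a.1) 11 IvZ (fun a => LZ.nn a = true) ent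
    11 121 rfl A K N h.1 h.2 hD
  exact ⟨lall_of h1, h2⟩

theorem mem_le {α : Type} (e : α → ℤ) (he : ∀ a, 0 ≤ e a) (A : List α) : 0 ≤ ev e 1 A ∧
    ∀ a ∈ A, e a ≤ ev e 1 A := by
  induction A with
  | nil => simp [ev]
  | cons a A ih =>
    have := he a
    simp only [ev, one_mul]
    refine ⟨by linarith [ih.1], ?_⟩
    intro c hc
    rcases List.mem_cons.1 hc with rfl | hc
    · linarith [ih.1]
    · linarith [ih.2 c hc]

theorem top (P : P3) (hG : G3 (g 10) P) (hn : 2 * pn P < WW) (hD : DG WW 1331 (pv P)) :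
    isPos P = true := by
  have h1 := mem_le (ev (fun a : ℤ × ℕ => (a.2 : ℤ)) 1)
    (fun A => (mem_le (fun a : ℤ × ℕ => (a.2 : ℤ)) (fun a => by positivity) A).1) P
  have hI : ∀ A ∈ P, A.length ≤ 11 ∧ ∀ a ∈ A, IvZ a := by
    intro A hA
    refine ⟨(hG.2 A hA).1, fun a ha => ⟨(hG.2 A hA).2 a ha, ?_⟩⟩
    have h2 := h1.2 A hA
    have h3 := (mem_le (fun a : ℤ × ℕ => (a.2 : ℤ)) (fun a => by positivity) A).2 a ha
    have h4 : (a.2 : ℤ) ≤ pn P := h3.trans h2
    linarith
  have e : DG WW (1331 + 0) (ev (ev (fun a : ℤ × ℕ => a.1) (WW ^ 11)) (WW ^ 121) P +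
      WW ^ 1331 * 0) := by
    rw [mul_zero, add_zero, add_zero]
    exact hD
  exact lall_of (blk' WW_pos (ev (fun a : ℤ × ℕ => a.1) (WW ^ 11)) 121
    (fun A => A.length ≤ 11 ∧ ∀ a ∈ A, IvZ a) (fun A => lall LZ A = true) row 11 1331 rfl P 0 0
    hG.1 hI e).1

/-! ### the mask -/

/-- `Σ_{k<K} 2^(p + (p+1) k)` -/
def MK (p : ℕ) : ℕ → ℕ
  | 0 => 0
  | K + 1 => 2 ^ p + 2 ^ (p + 1) * MK p K

theorem MK_eq (p K : ℕ) : MK p K * (2 ^ (p + 1) - 1) = 2 ^ p * (2 ^ ((p + 1) * K) - 1) := by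
  induction K with
  | zero => simp [MK]
  | succ K ih =>
    obtain ⟨a, ha⟩ : ∃ a, 2 ^ (p + 1) = a + 1 := ⟨2 ^ (p + 1) - 1, by
      have := Nat.one_le_two_pow (n := p + 1)
      omega⟩
    obtain ⟨b, hb⟩ : ∃ b, 2 ^ ((p + 1) * K) = b + 1 := ⟨2 ^ ((p + 1) * K) - 1, by
      have := Nat.one_le_two_pow (n := (p + 1) * K)
      omega⟩
    have e : 2 ^ ((p + 1) * (K + 1)) = (b + 1) * (a + 1) := by
      rw [Nat.mul_succ, pow_add, ha, hb]
    simp only [MK]
    rw [ha, hb] at ih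
    rw [ha, e]
    simp only [Nat.add_sub_cancel] at ih ⊢
    have e2 : (b + 1) * (a + 1) - 1 = b * (a + 1) + a := by
      have : (b + 1) * (a + 1) = b * (a + 1) + a + 1 := by ring
      omega
    rw [e2]
    calc (2 ^ p + (a + 1) * MK p K) * a = 2 ^ p * a + (a + 1) * (MK p K * a) := by ring
      _ = 2 ^ p * a + (a + 1) * (2 ^ p * b) := by rw [ih]
      _ = 2 ^ p * (b * (a + 1) + a) := by ring

theorem and_dg (p K n : ℕ) (h : n &&& MK p K = 0) : DG (2 ^ (p + 1)) K (n : ℤ) := by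
  induction K generalizing n with
  | zero => trivial
  | succ K ih =>
    have hlt : 2 ^ p < 2 ^ (p + 1) := Nat.pow_lt_pow_right (by norm_num) (by omega)
    have hm : MK p (K + 1) % 2 ^ (p + 1) = 2 ^ p := by
      simp only [MK]
      rw [Nat.add_mul_mod_self_left, Nat.mod_eq_of_lt hlt]
    have hd : MK p (K + 1) / 2 ^ (p + 1) = MK p K := by
      simp only [MK]
      rw [Nat.add_mul_div_left _ _ (by positivity), Nat.div_eq_of_lt hlt, zero_add]
    have h1 : (n % 2 ^ (p + 1)) &&& 2 ^ p = 0 := by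
      rw [← hm, ← Nat.and_mod_two_pow, h, Nat.zero_mod]
    have h2 : (n / 2 ^ (p + 1)) &&& MK p K = 0 := by
      rw [← hd, ← Nat.and_div_two_pow, h, Nat.zero_div]
    have h3 : n % 2 ^ (p + 1) < 2 ^ p := by
      rw [Nat.and_two_pow] at h1
      have h4 : (n % 2 ^ (p + 1)).testBit p = false := by
        by_contra hc
        rw [Bool.not_eq_false] at hc
        rw [hc] at h1
        simp at h1
      have h5 : n % 2 ^ (p + 1) < 2 ^ (p + 1) := Nat.mod_lt _ (by positivity)
      refine Nat.lt_pow_two_of_testBit _ (fun i hi => ?_)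
      rcases Nat.eq_or_lt_of_le hi with rfl | hi
      · exact h4
      · exact Nat.testBit_lt_two_pow (h5.trans_le (Nat.pow_le_pow_right (by norm_num) hi))
    refine ⟨?_, ?_⟩
    · have : ((n : ℤ) % 2 ^ (p + 1)) = ((n % 2 ^ (p + 1) : ℕ) : ℤ) := by push_cast; rfl
      rw [this]
      have h6 : ((n % 2 ^ (p + 1) : ℕ) : ℤ) < (2 : ℤ) ^ p := by exact_mod_cast h3
      have h7 : (2 : ℤ) ^ (p + 1) = 2 * 2 ^ p := by ring
      generalize ((n % 2 ^ (p + 1) : ℕ) : ℤ) = w at h6 ⊢
      rw [h7]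
      linarith
    · have : ((n : ℤ) / 2 ^ (p + 1)) = ((n / 2 ^ (p + 1) : ℕ) : ℤ) := by push_cast; rfl
      rw [this]
      exact ih _ h2

end Pool.Agent.Helper65.KQ
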